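import Pool.Agent.Y86.QE.Defs

/-!
# Generic complete intersections embed in no quadratic complete intersection

A stronger form of `NoQuadraticEmbedding` (which has `d ≥ 160`, and existence only).
-/

set_option autoImplicit false

namespace Pool.Agent.Results.MP_ee4e20_al.GenericNonEmbedding

open MvPolynomial Pool.Agent.Y86.QE

universe u

/-- Over every field `F`, let `a + e = d + 1` with `e = 6` and `d ≥ 20`, or more generally with
`e ≥ 2` and `d * (d + 1).choose 2 + (a + 1) * d < a.choose e`. The algebras
`F[x_1,…,x_a,y]/(x_1²,…,x_a²,y^e-g(x))`, with `g` a squarefree form of degree `e`, are complete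
intersections of socle degree `d`, and for some `g`, and in fact for generic `g`, there is no
injective algebra map into a complete intersection of socle degree `d` cut out by quadrics. -/
theorem result (F : Type u) [Field F] (a e d : ℕ) (had : a + e = d + 1)
    (h : (e = 6 ∧ 20 ≤ d) ∨ (2 ≤ e ∧ d * (d + 1).choose 2 + (a + 1) * d < a.choose e)) :
    (∀ g : {T : Finset (Fin a) // T.card = e} → F,
      IsGradedCI (family g) ∧ (∀ i : Fin a, (family g i.castSucc).IsHomogeneous 2) ∧
      (family g (Fin.last a)).IsHomogeneous e ∧ Module.Finite F (Alg (family g)) ∧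
      HasSocleDegree (Ideal.span (Set.range (family g))) d) ∧
    (∃ g : {T : Finset (Fin a) // T.card = e} → F, NoQuadraticTarget (family g) d) ∧
    Generically (fun g : {T : Finset (Fin a) // T.card = e} → F =>
      NoQuadraticTarget (family g) d) := by
  have h2 : 2 ≤ e ∧ d * (d + 1).choose 2 + (a + 1) * d < a.choose e := by
    rcases h with ⟨rfl, hd⟩ | h
    · refine ⟨by norm_num, ?_⟩
      have h1 := sextic (m := a) (by omega)
      rwa [show a + 5 = d by omega] at h1
    · exact h
  have hgen := generic_quadratic (F := F) h2.1 had h2.2
  refine ⟨fun g => ?_, hgen.exists, hgen⟩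
  have hs := socle_family (by omega) had g
  exact ⟨isGradedCI_family (by omega) g, (family_homog g).1, (family_homog g).2,
    finite_of_socle hs, hs⟩

end Pool.Agent.Results.MP_ee4e20_al.GenericNonEmbedding
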