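import Pool.Agent.Y86.QE.Defs

/-!
# Complete intersections which embed in no algebra with relations of low degree

`NoQuadraticEmbedding` has quadratic complete intersections as targets only.
-/

set_option autoImplicit false

namespace Pool.Agent.Results.MP_ee4e20_al.LowDegreeTargets

open MvPolynomial Pool.Agent.Y86.QE

universe u

/-- Over every field `F` and for every `d ≥ 60` let `e = (d + 1) / 3` and `a = d + 1 - e`. The
algebras `F[x_1,…,x_a,y]/(x_1²,…,x_a²,y^e-g(x))`, with `g` a squarefree form of degree `e`, are
complete intersections of socle degree `d`, and for some `g`, and in fact for generic `g`, there is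
no injective algebra map into any of the algebras with relations of low degree which are listed in
`NoLowDegreeTarget`. -/
theorem result (F : Type u) [Field F] (a e d : ℕ) (hd : 60 ≤ d) (he : e = (d + 1) / 3)
    (had : a + e = d + 1) :
    (∀ g : {T : Finset (Fin a) // T.card = e} → F,
      IsGradedCI (family g) ∧ (∀ i : Fin a, (family g i.castSucc).IsHomogeneous 2) ∧
      (family g (Fin.last a)).IsHomogeneous e ∧ Module.Finite F (Alg (family g)) ∧
      HasSocleDegree (Ideal.span (Set.range (family g))) d) ∧
    (∃ g : {T : Finset (Fin a) // T.card = e} → F, NoLowDegreeTarget (family g) d) ∧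
    Generically (fun g : {T : Finset (Fin a) // T.card = e} → F =>
      NoLowDegreeTarget (family g) d) := by
  have hgen := generic_low (F := F) hd he had
  refine ⟨fun g => ?_, hgen.exists, hgen⟩
  have hs := socle_family (by omega) had g
  exact ⟨isGradedCI_family (by omega) g, (family_homog g).1, (family_homog g).2,
    finite_of_socle hs, hs⟩

end Pool.Agent.Results.MP_ee4e20_al.LowDegreeTargets
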